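import Pool.Agent.Helper42.Jef.Mat
import Pool.Agent.Helper42.Jef.Defs3
import Pool.Agent.Helper22.JefBk

/-! # P3: renormalised equations of the stress -/

open MeasureTheory Set Filter Topology
open scoped ENNReal NNReal ContDiff

namespace Pool.Agent.Helper81.Jef

open Pool.Agent.Helper42.Jef Pool.Agent.Helper22.Jef

variable {n : ℕ}

/-- `renorm_loc` as a property of `(T, v)` (any pair of finite dimensional spaces) -/
def RenLoc (n : ℕ) (T : ℝ) (v : ST n → Eu n) (E E' : Type) [NormedAddCommGroup E]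
    [NormedSpace ℝ E] [NormedAddCommGroup E'] [NormedSpace ℝ E'] : Prop :=
  ∀ (u F : ST n → E), MemLp u 2 volume →
    (∀ R : ℝ, IntegrableOn F {z : ST n | ‖z.2‖ ≤ R} volume) → TE T v u F →
    ∀ (β : E → E'), ContDiff ℝ 1 β → ∀ L : ℝ, (∀ x, ‖fderiv ℝ β x‖ ≤ L) →
    TE T v (fun z => β (u z)) (fun z => fderiv ℝ β (u z) (F z))

theorem ext0_of_mem {E : Type*} {u0 : Eu n → E} {u : ST n → E} {z : ST n}
    (hz : z.1 ∈ Ioo (-1 : ℝ) 0) : ext0 u0 u z = u0 z.2 := by
  simp only [ext0, if_pos hz]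

theorem ext0_of_notMem {E : Type*} {u0 : Eu n → E} {u : ST n → E} {z : ST n}
    (hz : z.1 ∉ Ioo (-1 : ℝ) 0) : ext0 u0 u z = u z := by
  simp only [ext0, if_neg hz]

theorem ext0_comp {E E' : Type*} {u0 : Eu n → E} {u : ST n → E} (β : E → E') :
    (fun z => β (ext0 u0 u z)) = ext0 (fun x => β (u0 x)) (fun z => β (u z)) := by
  funext z
  by_cases hz : z.1 ∈ Ioo (-1 : ℝ) 0
  · rw [ext0_of_mem hz, ext0_of_mem hz]
  · rw [ext0_of_notMem hz, ext0_of_notMem hz]

theorem memLp_ext0 {E : Type*} [NormedAddCommGroup E] {u0 : Eu n → E}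
    (h0 : MemLp u0 2 volume) {u : ST n → E} (hu : MemLp u 2 volume) :
    MemLp (ext0 u0 u) 2 volume := by
  have hA : MeasurableSet (Ioo (-1 : ℝ) 0 ×ˢ (univ : Set (Eu n))) :=
    measurableSet_Ioo.prod MeasurableSet.univ
  have h1 : MemLp (fun z : ST n => u0 z.2) 2
      (volume.restrict (Ioo (-1 : ℝ) 0 ×ˢ (univ : Set (Eu n)))) := by
    have := h0.comp_snd (volume.restrict (Ioo (-1 : ℝ) 0))
    rw [Measure.volume_eq_prod, ← Measure.prod_restrict, Measure.restrict_univ]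
    exact this
  have h2 := (memLp_indicator_iff_restrict hA).2 h1
  have h3 := hu.indicator hA.compl
  refine (h2.add h3).ae_eq (Eventually.of_forall fun z => ?_)
  by_cases hz : z.1 ∈ Ioo (-1 : ℝ) 0
  · have hz' : z ∈ Ioo (-1 : ℝ) 0 ×ˢ (univ : Set (Eu n)) := ⟨hz, trivial⟩
    have hz'' : z ∉ (Ioo (-1 : ℝ) 0 ×ˢ (univ : Set (Eu n)))ᶜ := fun h => h hz'
    rw [Pi.add_apply, indicator_of_mem hz', indicator_of_notMem hz'', ext0_of_mem hz, add_zero]
  · have hz' : z ∉ Ioo (-1 : ℝ) 0 ×ˢ (univ : Set (Eu n)) := fun h => hz h.1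
    have hz'' : z ∈ (Ioo (-1 : ℝ) 0 ×ˢ (univ : Set (Eu n)))ᶜ := hz'
    rw [Pi.add_apply, indicator_of_notMem hz', indicator_of_mem hz'', ext0_of_notMem hz, zero_add]

theorem integrableOn_slab {E : Type*} [NormedAddCommGroup E] {T : ℝ} {F : ST n → E}
    (hF : MemLp F 2 volume) (h0 : ∀ᵐ z : ST n, z.1 ∉ Ioo 0 T → F z = 0) (R : ℝ) :
    IntegrableOn F {z : ST n | ‖z.2‖ ≤ R} volume := by
  have hB : MeasurableSet (Ioo (0 : ℝ) T ×ˢ Metric.closedBall (0 : Eu n) R) :=
    measurableSet_Ioo.prod Metric.isClosed_closedBall.measurableSet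
  have hfin : volume (Ioo (0 : ℝ) T ×ˢ Metric.closedBall (0 : Eu n) R) ≠ ⊤ := by
    rw [Measure.volume_eq_prod, Measure.prod_prod]
    exact ENNReal.mul_ne_top (by simp) (measure_closedBall_lt_top).ne
  have h1 : IntegrableOn F (Ioo (0 : ℝ) T ×ˢ Metric.closedBall (0 : Eu n) R) volume := by
    have : IsFiniteMeasure (volume.restrict (Ioo (0 : ℝ) T ×ˢ Metric.closedBall (0 : Eu n) R)) :=
      ⟨by rw [Measure.restrict_apply_univ]; exact lt_top_iff_ne_top.2 hfin⟩
    exact (hF.restrict _).integrable (by norm_num)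
  have hS : MeasurableSet {z : ST n | ‖z.2‖ ≤ R} :=
    measurableSet_le (measurable_snd.norm) measurable_const
  have h2 : Integrable ((Ioo (0 : ℝ) T ×ˢ Metric.closedBall (0 : Eu n) R).indicator F) volume :=
    h1.integrable_indicator hB
  rw [← integrable_indicator_iff hS]
  refine h2.congr ?_
  filter_upwards [h0] with z hz
  by_cases hz1 : z.1 ∈ Ioo 0 T
  · by_cases hz2 : ‖z.2‖ ≤ R
    · rw [indicator_of_mem (show z ∈ Ioo (0 : ℝ) T ×ˢ Metric.closedBall (0 : Eu n) R from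
          ⟨hz1, by simpa using hz2⟩),
        indicator_of_mem (show z ∈ {z : ST n | ‖z.2‖ ≤ R} from hz2)]
    · rw [indicator_of_notMem (show z ∉ Ioo (0 : ℝ) T ×ˢ Metric.closedBall (0 : Eu n) R from
          fun h => hz2 (by simpa using h.2)),
        indicator_of_notMem (show z ∉ {z : ST n | ‖z.2‖ ≤ R} from hz2)]
  · rw [indicator_of_notMem (show z ∉ Ioo (0 : ℝ) T ×ˢ Metric.closedBall (0 : Eu n) R from
      fun h => hz1 h.1)]
    by_cases hz2 : ‖z.2‖ ≤ R
    · rw [indicator_of_mem (show z ∈ {z : ST n | ‖z.2‖ ≤ R} from hz2), hz hz1]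
    · rw [indicator_of_notMem (show z ∉ {z : ST n | ‖z.2‖ ≤ R} from hz2)]

/-- congruence of the right hand side of the transport equation -/
theorem te_congr {E : Type*} [NormedAddCommGroup E] [NormedSpace ℝ E] {T : ℝ} {v : ST n → Eu n}
    {u u' F F' : ST n → E} (hu : u = u') (hF : ∀ᵐ z, F z = F' z) (h : TE T v u F) :
    TE T v u' F' := by
  subst hu
  intro η ψ hη hψ
  rw [← h η ψ hη hψ]
  refine integral_congr_ae ?_
  filter_upwards [hF] with z hz
  rw [hz]

theorem bk_fderiv_br {k : ℝ} {A W : Mt n} (hW : tr W = -W) :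
    fderiv ℝ (bk k) A (br A W) = br (bk k A) W := by
  rw [bk_fderiv, real_inner_comm, inner_br A W hW, bk_eq, br_smul_left]
  simp

theorem te_bk {Ω : Set (Eu n)} {T : ℝ} (hT : 0 < T) {v : ST n → Eu n}
    (hR1 : RenLoc n T v (Mt n) (Mt n)) (hR2 : RenLoc n T v (Mt n) ℝ)
    {G τ S : ST n → Mt n} {a c : ℝ} (hG : MemLp G 2 volume) (hτ : MemLp τ 2 volume)
    (hS : MemLp S 2 volume) (hSa : ∀ᵐ z, tr (S z) = - S z)
    (hsup : ∀ z : ST n, z.1 ∉ Ioo 0 T → τ z = 0)
    (hG0 : ∀ᵐ z : ST n, (z.1 ∉ Ioo 0 T ∨ z.2 ∉ Ω) → G z = 0) {τ0 : Eu n → Mt n}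
    (hτ0 : MemLp τ0 2 volume)
    (h : TE T v (ext0 τ0 τ) (fun z => c • sy (G z) - a • τ z - br (τ z) (S z)))
    {k : ℝ} (hk : 0 < k) :
    TE T v (ext0 (fun x => bk k (τ0 x)) (fun z => bk k (τ z)))
      (fun z => fderiv ℝ (bk k) (τ z) (c • sy (G z) - a • τ z) - br (bk k (τ z)) (S z)) ∧
    TE T v (ext0 (fun x => ‖bk k (τ0 x)‖ ^ 2) (fun z => ‖bk k (τ z)‖ ^ 2))
      (fun z => 2 * inner ℝ (bk k (τ z))
        (fderiv ℝ (bk k) (τ z) (c • sy (G z) - a • τ z))) := by
  have hu : MemLp (ext0 τ0 τ) 2 volume := memLp_ext0 hτ0 hτ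
  have hF1 : MemLp (fun z => c • sy (G z) - a • τ z) 2 volume := by
    have h1 : MemLp (fun z => c • sy (G z)) 2 volume := by
      have := ((syL n).comp_memLp' hG).const_smul c
      exact this
    exact h1.sub (hτ.const_smul a)
  have hF0 : ∀ᵐ z : ST n, z.1 ∉ Ioo 0 T → c • sy (G z) - a • τ z - br (τ z) (S z) = 0 := by
    filter_upwards [hG0] with z hz hz1
    rw [hz (Or.inl hz1), hsup z hz1]
    have : sy (0 : Mt n) = 0 := (syL n).map_zero
    simp [this]
  have hF : ∀ R : ℝ, IntegrableOn (fun z => c • sy (G z) - a • τ z - br (τ z) (S z))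
      {z : ST n | ‖z.2‖ ≤ R} volume := by
    intro R
    have h1 : IntegrableOn (fun z => c • sy (G z) - a • τ z) {z : ST n | ‖z.2‖ ≤ R} volume := by
      refine integrableOn_slab (T := T) hF1 ?_ R
      filter_upwards [hG0] with z hz hz1
      rw [hz (Or.inl hz1), hsup z hz1]
      have : sy (0 : Mt n) = 0 := (syL n).map_zero
      simp [this]
    have h2 : Integrable (fun z => br (τ z) (S z)) volume := by
      have hms : AEStronglyMeasurable (fun z => br (τ z) (S z)) volume := by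
        have := (brL n).aestronglyMeasurable_comp₂ hτ.1 hS.1
        exact this
      have hi : Integrable (fun z => 2 * (‖τ z‖ * ‖S z‖)) volume :=
        (hτ.norm.integrable_mul hS.norm).const_mul 2
      refine hi.mono' hms (Eventually.of_forall fun z => ?_)
      exact norm_br_le _ _
    exact h1.sub h2.integrableOn
  have key : ∀ {E' : Type} [NormedAddCommGroup E'] [NormedSpace ℝ E'] (β : Mt n → E'),
      ∀ᵐ z : ST n, fderiv ℝ β (ext0 τ0 τ z) (c • sy (G z) - a • τ z - br (τ z) (S z)) =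
        fderiv ℝ β (τ z) (c • sy (G z) - a • τ z - br (τ z) (S z)) := by
    intro E' _ _ β
    filter_upwards [hF0] with z hz
    by_cases hz1 : z.1 ∈ Ioo (-1 : ℝ) 0
    · have hz2 : z.1 ∉ Ioo 0 T := fun hc => absurd hc.1 (not_lt.2 hz1.2.le)
      rw [hz hz2, map_zero, map_zero]
    · rw [ext0_of_notMem hz1]
  constructor
  · have h1 := hR1 _ _ hu hF h (bk k) ((bk_contDiff k).of_le (by simp)) 1 (bk_fderiv_norm k)
    refine te_congr (ext0_comp (bk k)) ?_ h1
    filter_upwards [key (bk k), hSa] with z hz hz1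
    rw [hz, map_sub, bk_fderiv_br hz1]
  · have h1 := hR2 _ _ hu hF h (fun x => ‖bk k x‖ ^ 2) ((bk_sq_contDiff k).of_le (by simp)) (2 * k)
      (bk_sq_fderiv_norm hk)
    refine te_congr (ext0_comp (fun x : Mt n => ‖bk k x‖ ^ 2)) ?_ h1
    filter_upwards [key (fun x : Mt n => ‖bk k x‖ ^ 2), hSa] with z hz hz1
    rw [hz, bk_sq_fderiv, map_sub, bk_fderiv_br hz1, inner_sub_right, real_inner_comm (br _ _),
      inner_br _ _ hz1, sub_zero]

end Pool.Agent.Helper81.Jef
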